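import Pool.Agent.TH937.FF6.Defs

/-!
# Continuity of the averages over dilations
-/

set_option autoImplicit false
namespace Pool.Agent.TH937.FF6
open MeasureTheory Set Filter Topology
open Pool.Agent.TH937.ZC (QL RCc)
open Pool.Agent.TH937.FF4 (Da)
open scoped ComplexConjugate

theorem av_cont {f φ : ℝ → ℝ} {ε σ : ℝ} (hφ : Bp φ ε) (hf : Continuous f) :
    Continuous (av φ σ f) := by
  have hc : Continuous φ := hφ.sm.continuous
  have h1 : av φ σ f = fun x => ∫ t in (-1 : ℝ)..ε, φ t * f (Real.exp (σ * t) * x) := by
    funext x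
    unfold av
    symm
    refine intervalIntegral.integral_eq_integral_of_support_subset fun t ht => ?_
    have h2 : φ t ≠ 0 := left_ne_zero_of_mul ht
    obtain ⟨h3, h4⟩ := hφ.su t h2
    exact ⟨by linarith, h4⟩
  rw [h1]
  refine intervalIntegral.continuous_parametric_intervalIntegral_of_continuous' ?_ _ _
  unfold Function.uncurry
  fun_prop

end Pool.Agent.TH937.FF6
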