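import Pool.Agent.TH937.FF6.Defs

/-!
# Averages over dilations are smooth
-/

set_option autoImplicit false

namespace Pool.Agent.TH937.FF6
open MeasureTheory Set Filter Topology
open Pool.Agent.TH937.ZC (QL RCc)
open Pool.Agent.TH937.FF4 (Da)
open scoped ComplexConjugate

private lemma supp_Bp {φ : ℝ → ℝ} {ε : ℝ} (hφ : Bp φ ε) : HasCompactSupport φ := by
  refine HasCompactSupport.of_support_subset_isCompact (isCompact_Icc (a := (0 : ℝ)) (b := ε)) ?_
  intro t ht
  exact hφ.su t ht

private lemma supp_Bp_neg {φ : ℝ → ℝ} {ε : ℝ} (hφ : Bp φ ε) :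
    HasCompactSupport (fun t => φ (-t)) := by
  refine HasCompactSupport.of_support_subset_isCompact (isCompact_Icc (a := -ε) (b := (0 : ℝ))) ?_
  intro t ht
  have h := hφ.su (-t) ht
  exact ⟨by linarith [h.2], by linarith [h.1]⟩

private lemma exp_cont {f : ℝ → ℝ} (hf : ContinuousOn f (Ioi 0)) :
    Continuous (fun u => f (Real.exp u)) :=
  hf.comp_continuous Real.continuous_exp fun u => Real.exp_pos u

private lemma exp_log_mul {x : ℝ} (hx : 0 < x) (s : ℝ) :
    Real.exp s * x = Real.exp (Real.log x + s) := by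
  rw [Real.exp_add, Real.exp_log hx, mul_comm]

private lemma av_log {f φ : ℝ → ℝ} {H : ℝ → ℝ} {σ : ℝ}
    (hH : ContDiff ℝ 3 H) (he : ∀ y, H y = ∫ t, φ t * f (Real.exp (y + σ * t))) :
    ContDiffOn ℝ 3 (av φ σ f) (Ioi 0) := by
  have h1 : ContDiffOn ℝ 3 (fun x => H (Real.log x)) (Ioi 0) := by
    refine hH.comp_contDiffOn (Real.contDiffOn_log.mono ?_)
    intro x hx
    exact ne_of_gt hx
  refine h1.congr fun x hx => ?_
  rw [he, av]
  refine integral_congr_ae (Filter.Eventually.of_forall fun t => ?_)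
  dsimp only
  rw [exp_log_mul hx]

theorem av_smooth {f φ : ℝ → ℝ} {ε σ : ℝ} (hφ : Bp φ ε) (hσ : σ = 1 ∨ σ = -1)
    (hf : ContinuousOn f (Ioi 0)) : ContDiffOn ℝ 3 (av φ σ f) (Ioi 0) := by
  have hG := exp_cont hf
  rcases hσ with rfl | rfl
  · have hs : ContDiff ℝ 3 (fun t => φ (-t)) := hφ.sm.comp contDiff_neg
    have hc := (supp_Bp_neg hφ).contDiff_convolution_left (ContinuousLinearMap.lsmul ℝ ℝ) hs
      (hG.locallyIntegrable (μ := volume))
    refine av_log hc fun y => ?_
    rw [convolution_def, ← integral_neg_eq_self]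
    refine integral_congr_ae (Filter.Eventually.of_forall fun t => ?_)
    simp only [ContinuousLinearMap.lsmul_apply, smul_eq_mul, neg_neg]
    congr 3
    ring
  · have hc := (supp_Bp hφ).contDiff_convolution_left (ContinuousLinearMap.lsmul ℝ ℝ) hφ.sm
      (hG.locallyIntegrable (μ := volume))
    refine av_log hc fun y => ?_
    rw [convolution_def]
    refine integral_congr_ae (Filter.Eventually.of_forall fun t => ?_)
    simp only [ContinuousLinearMap.lsmul_apply, smul_eq_mul]
    congr 3
    ring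

end Pool.Agent.TH937.FF6
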