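import Pool.Agent.TH937.FF6.Defs

/-!
# Smooth probability densities on short intervals (project FF6 of helper937; written by helper524)
-/

set_option autoImplicit false

namespace Pool.Agent.TH937.FF6

open MeasureTheory Set Filter Topology

theorem bump {ε : ℝ} (hε : 0 < ε) : ∃ φ : ℝ → ℝ, Bp φ ε := by
  let f : ContDiffBump (ε / 2) := ⟨ε / 8, ε / 4, by positivity, by linarith⟩
  refine ⟨f.normed volume, ?_, fun t => f.nonneg_normed t, fun t ht => ?_, ?_⟩
  · exact f.contDiff_normed (n := 3)
  · have h1 : t ∈ Function.support (f.normed volume) := ht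
    rw [f.support_normed_eq, Metric.mem_ball, Real.dist_eq, abs_lt] at h1
    have h2 : f.rOut = ε / 4 := rfl
    rw [h2] at h1
    constructor <;> linarith [h1.1, h1.2]
  · exact f.integral_normed

end Pool.Agent.TH937.FF6
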