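import Pool.Agent.TH937.FF6.Defs

/-!
# Averages over dilations of `s` are uniformly close on bounded sets
-/

set_option autoImplicit false

namespace Pool.Agent.TH937.FF6

open MeasureTheory Set Filter Topology
open Pool.Agent.TH937.ZC (QL RCc)
open Pool.Agent.TH937.FF4 (Da)
open scoped ComplexConjugate

/-- integrability of a smooth density against a continuous function -/
private theorem closeS_int {φ : ℝ → ℝ} {δ : ℝ} (hφ : Bp φ δ) {f : ℝ → ℝ} (hf : Continuous f) :
    Integrable (fun t => φ t * f t) := by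
  refine Continuous.integrable_of_hasCompactSupport (hφ.sm.continuous.mul hf) ?_
  refine HasCompactSupport.intro (isCompact_Icc : IsCompact (Icc (0 : ℝ) δ)) ?_
  intro x hx
  have h0 : φ x = 0 := by
    by_contra hne
    exact hx (hφ.su x hne)
  simp [h0]

/-- the point with given `s` and `v` -/
private noncomputable def closeS_P (v s : ℝ) : ℂ × ℂ :=
  ((((s + v) / 2 : ℝ) : ℂ), (((s - v) / 2 : ℝ) : ℂ))

private theorem closeS_n1 {v s : ℝ} (h : |v| ≤ s) : ‖(closeS_P v s).1‖ = (s + v) / 2 := by
  have h' := abs_le.1 h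
  simp only [closeS_P, Complex.norm_real, Real.norm_eq_abs]
  exact abs_of_nonneg (by linarith [h'.1])

private theorem closeS_n2 {v s : ℝ} (h : |v| ≤ s) : ‖(closeS_P v s).2‖ = (s - v) / 2 := by
  have h' := abs_le.1 h
  simp only [closeS_P, Complex.norm_real, Real.norm_eq_abs]
  exact abs_of_nonneg (by linarith [h'.2])

private theorem closeS_wq (a b h c : ℝ → ℝ) {v s : ℝ} (hv : |v| ≤ s) :
    wq a b h c (closeS_P v s) = a v * s + b v + h s + c s * v := by
  have e1 : (s + v) / 2 + (s - v) / 2 = s := by ring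
  have e2 : (s + v) / 2 - (s - v) / 2 = v := by ring
  simp only [wq, closeS_n1 hv, closeS_n2 hv, e1, e2]

private theorem closeS_mem {v s r : ℝ} (hv : |v| ≤ s) (hr : s ≤ r) :
    closeS_P v s ∈ Metric.closedBall (0 : ℂ × ℂ) r := by
  have h' := abs_le.1 hv
  rw [mem_closedBall_zero_iff, Prod.norm_def, closeS_n1 hv, closeS_n2 hv]
  exact max_le (by linarith [h'.2]) (by linarith [h'.1])

private theorem closeS_dist (v s s' : ℝ) :
    dist (closeS_P v s') (closeS_P v s) ≤ |s' - s| := by
  rw [dist_eq_norm, Prod.norm_def]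
  have e1 : (closeS_P v s' - closeS_P v s).1 = (((s' - s) / 2 : ℝ) : ℂ) := by
    simp only [closeS_P, Prod.fst_sub, ← Complex.ofReal_sub]
    congr 1
    ring
  have e2 : (closeS_P v s' - closeS_P v s).2 = (((s' - s) / 2 : ℝ) : ℂ) := by
    simp only [closeS_P, Prod.snd_sub, ← Complex.ofReal_sub]
    congr 1
    ring
  rw [e1, e2, max_self, Complex.norm_real, Real.norm_eq_abs, abs_div]
  have h2 : |(2 : ℝ)| = 2 := by norm_num
  rw [h2]
  linarith [abs_nonneg (s' - s)]

private theorem closeS_cont (v : ℝ) : Continuous (closeS_P v) := by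
  unfold closeS_P
  fun_prop

theorem closeS {a b h c : ℝ → ℝ} (hw : Continuous (wq a b h c)) (ha : Continuous a)
    (hb : Continuous b) (hh : ContinuousOn h (Ioi 0)) (hc : ContinuousOn c (Ioi 0))
    {R ε : ℝ} (hR : 0 < R) (hε : 0 < ε) :
    ∃ δ : ℝ, 0 < δ ∧ ∀ φ, Bp φ δ → ∀ F : ℂ × ℂ, ‖F.1‖ + ‖F.2‖ ≤ R →
      |wq (fun v => Ec φ 1 * a v) b (av φ 1 h) (av φ 1 c) F - wq a b h c F| ≤ ε := by
  have hcomp : IsCompact (Metric.closedBall (0 : ℂ × ℂ) (R + 1)) := isCompact_closedBall _ _
  obtain ⟨η, hη, huc⟩ := Metric.uniformContinuousOn_iff.1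
    (hcomp.uniformContinuousOn_of_continuous hw.continuousOn) ε hε
  set m : ℝ := min η 1 / 2 with hm
  have hm0 : 0 < m := by
    have : 0 < min η 1 := lt_min hη one_pos
    positivity
  have hmη : m < η := by
    have : min η 1 ≤ η := min_le_left _ _
    have h0 : 0 < min η 1 := lt_min hη one_pos
    rw [hm]; linarith
  have hm1 : m ≤ 1 := by
    have : min η 1 ≤ 1 := min_le_right _ _
    rw [hm]; linarith
  have hq : 0 < m / R := div_pos hm0 hR
  refine ⟨Real.log (1 + m / R), Real.log_pos (by linarith), ?_⟩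
  intro φ hφ F hF
  set s : ℝ := ‖F.1‖ + ‖F.2‖ with hs
  set v : ℝ := ‖F.1‖ - ‖F.2‖ with hv
  have hs0 : 0 ≤ s := by rw [hs]; positivity
  have hvs : |v| ≤ s := by
    rw [abs_le, hs, hv]
    constructor <;> linarith [norm_nonneg F.1, norm_nonneg F.2]
  have hold : wq a b h c F = a v * s + b v + h s + c s * v := rfl
  have hnew : wq (fun v => Ec φ 1 * a v) b (av φ 1 h) (av φ 1 c) F
      = Ec φ 1 * a v * s + b v + av φ 1 h s + av φ 1 c s * v := rfl
  rcases hs0.eq_or_lt with hs00 | hspos
  · -- `s = 0`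
    have hv0 : v = 0 := by
      rw [← hs00] at hvs
      exact abs_eq_zero.1 (le_antisymm hvs (abs_nonneg v))
    have hav : av φ 1 h 0 = h 0 := by
      have : (fun t => φ t * h (Real.exp (1 * t) * 0)) = fun t => φ t * h 0 := by
        funext t; rw [mul_zero]
      simp only [av]
      rw [this, integral_mul_const, hφ.int, one_mul]
    rw [hnew, hold, ← hs00, hv0, hav]
    simp [hε.le]
  -- `s > 0`
  have hexp : ∀ t, φ t ≠ 0 → s ≤ Real.exp (1 * t) * s ∧ Real.exp (1 * t) * s - s ≤ m := by
    intro t ht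
    obtain ⟨ht0, ht1⟩ := hφ.su t ht
    have e1 : 1 ≤ Real.exp (1 * t) := Real.one_le_exp (by linarith)
    have e2 : Real.exp (1 * t) ≤ 1 + m / R := by
      calc Real.exp (1 * t) ≤ Real.exp (Real.log (1 + m / R)) :=
            Real.exp_le_exp.2 (by linarith)
        _ = 1 + m / R := Real.exp_log (by linarith)
    refine ⟨by nlinarith, ?_⟩
    have e3 : Real.exp (1 * t) * s - s = (Real.exp (1 * t) - 1) * s := by ring
    rw [e3]
    calc (Real.exp (1 * t) - 1) * s ≤ (m / R) * R :=
          mul_le_mul (by linarith) hF hspos.le hq.le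
      _ = m := by field_simp
  have hcexp : Continuous (fun t : ℝ => Real.exp (1 * t) * s) := by fun_prop
  have hposexp : ∀ t : ℝ, Real.exp (1 * t) * s ∈ Ioi (0 : ℝ) := fun t =>
    mul_pos (Real.exp_pos _) hspos
  have hch : Continuous (fun t : ℝ => h (Real.exp (1 * t) * s)) :=
    hh.comp_continuous hcexp hposexp
  have hcc : Continuous (fun t : ℝ => c (Real.exp (1 * t) * s)) :=
    hc.comp_continuous hcexp hposexp
  have hI1 : Integrable (fun t => φ t * Real.exp (1 * t)) := closeS_int hφ (by fun_prop)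
  have hI2 : Integrable (fun t => φ t * h (Real.exp (1 * t) * s)) := closeS_int hφ hch
  have hI3 : Integrable (fun t => φ t * c (Real.exp (1 * t) * s)) := closeS_int hφ hcc
  have hI0 : Integrable φ := by
    have := closeS_int hφ (continuous_const (y := (1 : ℝ)))
    simpa using this
  set g : ℝ → ℝ := fun t =>
    wq a b h c (closeS_P v (Real.exp (1 * t) * s)) - wq a b h c F with hg
  have hpt : ∀ t, φ t * g t
      = (φ t * Real.exp (1 * t)) * (a v * s) + φ t * (b v - wq a b h c F)
        + φ t * h (Real.exp (1 * t) * s) + (φ t * c (Real.exp (1 * t) * s)) * v := by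
    intro t
    by_cases h0 : φ t = 0
    · simp [h0]
    · have h1 : |v| ≤ Real.exp (1 * t) * s := hvs.trans (hexp t h0).1
      simp only [hg, closeS_wq a b h c h1]
      ring
  have hint : ∫ t, φ t * g t
      = Ec φ 1 * (a v * s) + (b v - wq a b h c F) + av φ 1 h s + av φ 1 c s * v := by
    have e : (fun t => φ t * g t) = fun t =>
      (φ t * Real.exp (1 * t)) * (a v * s) + φ t * (b v - wq a b h c F)
        + φ t * h (Real.exp (1 * t) * s) + (φ t * c (Real.exp (1 * t) * s)) * v := funext hpt
    rw [e, integral_add, integral_add, integral_add, integral_mul_const, integral_mul_const,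
      integral_mul_const, hφ.int, one_mul]
    · rfl
    · exact hI1.mul_const _
    · exact hI0.mul_const _
    · exact (hI1.mul_const _).add (hI0.mul_const _)
    · exact hI2
    · exact ((hI1.mul_const _).add (hI0.mul_const _)).add hI2
    · exact hI3.mul_const _
  have hdiff : wq (fun v => Ec φ 1 * a v) b (av φ 1 h) (av φ 1 c) F - wq a b h c F
      = ∫ t, φ t * g t := by
    rw [hint, hnew]
    ring
  rw [hdiff]
  have hFP : wq a b h c F = wq a b h c (closeS_P v s) := by
    rw [closeS_wq a b h c hvs, hold]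
  have hbd : ∀ t, ‖φ t * g t‖ ≤ φ t * ε := by
    intro t
    by_cases h0 : φ t = 0
    · simp [h0]
    · obtain ⟨h1, h2⟩ := hexp t h0
      rw [norm_mul, Real.norm_of_nonneg (hφ.nn t)]
      refine mul_le_mul_of_nonneg_left ?_ (hφ.nn t)
      have hd : dist (closeS_P v (Real.exp (1 * t) * s)) (closeS_P v s) < η := by
        refine (closeS_dist v s _).trans_lt ?_
        rw [abs_of_nonneg (by linarith)]
        linarith
      have := huc _ (closeS_mem (hvs.trans h1) (by linarith)) _
        (closeS_mem hvs (by linarith)) hd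
      rw [Real.dist_eq] at this
      simp only [hg, hFP, Real.norm_eq_abs]
      exact this.le
  calc |∫ t, φ t * g t| = ‖∫ t, φ t * g t‖ := (Real.norm_eq_abs _).symm
    _ ≤ ∫ t, φ t * ε :=
        norm_integral_le_of_norm_le (hI0.mul_const _) (Eventually.of_forall hbd)
    _ = ε := by rw [integral_mul_const, hφ.int, one_mul]

end Pool.Agent.TH937.FF6
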