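import Pool.Agent.TH937.FF6.Defs
set_option autoImplicit false
namespace Pool.Agent.TH937.FF6
open MeasureTheory Set Filter Topology
open Pool.Agent.TH937.ZC (QL RCc)
open Pool.Agent.TH937.FF4 (Da)
open scoped ComplexConjugate

theorem closeV_cs {φ : ℝ → ℝ} {δ : ℝ} (hφ : Bp φ δ) : HasCompactSupport φ := by
  refine HasCompactSupport.intro (K := Icc 0 δ) isCompact_Icc fun x hx => ?_
  by_contra hne
  exact hx (hφ.su x hne)

theorem closeV_int {φ : ℝ → ℝ} {δ : ℝ} (hφ : Bp φ δ) {g : ℝ → ℝ} (hg : Continuous g) :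
    Integrable (fun t => φ t * g t) :=
  (hφ.sm.continuous.mul hg).integrable_of_hasCompactSupport (closeV_cs hφ).mul_right

theorem closeV_wq (a b h c : ℝ → ℝ) {s v : ℝ} (hsv : |v| ≤ s) :
    wq a b h c (((s + v) / 2 : ℝ), ((s - v) / 2 : ℝ)) = a v * s + b v + h s + c s * v := by
  rw [abs_le] at hsv
  unfold wq
  simp only [Complex.norm_real, Real.norm_eq_abs]
  rw [abs_of_nonneg (by linarith), abs_of_nonneg (by linarith)]
  have e1 : (s + v) / 2 - (s - v) / 2 = v := by ring
  have e2 : (s + v) / 2 + (s - v) / 2 = s := by ring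
  rw [e1, e2]

theorem closeV {a b h c : ℝ → ℝ} (hw : Continuous (wq a b h c)) (ha : Continuous a)
    (hb : Continuous b) {R ε : ℝ} (hR : 0 < R) (hε : 0 < ε) :
    ∃ δ : ℝ, 0 < δ ∧ ∀ φ, Bp φ δ → ∀ F : ℂ × ℂ, ‖F.1‖ + ‖F.2‖ ≤ R →
      |wq (av φ (-1) a) (av φ (-1) b) h (fun s => Ec φ (-1) * c s) F - wq a b h c F| ≤ ε := by
  set g : ℝ × ℝ → ℝ := fun p => wq a b h c (((p.1 + p.2) / 2 : ℝ), ((p.1 - p.2) / 2 : ℝ)) with hg
  have hgc : Continuous g := by
    refine hw.comp ?_
    refine Continuous.prodMk ?_ ?_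
    · exact Complex.continuous_ofReal.comp (by fun_prop)
    · exact Complex.continuous_ofReal.comp (by fun_prop)
  have huc := (isCompact_Icc (a := ((0 : ℝ), -R)) (b := ((R : ℝ), R))).uniformContinuousOn_of_continuous
    hgc.continuousOn
  rw [Metric.uniformContinuousOn_iff] at huc
  obtain ⟨δ₀, hδ₀, hunif⟩ := huc ε hε
  refine ⟨δ₀ / (2 * R), by positivity, ?_⟩
  intro φ hφ F hF
  set s := ‖F.1‖ + ‖F.2‖ with hs
  set v := ‖F.1‖ - ‖F.2‖ with hv
  have hn1 := norm_nonneg F.1
  have hn2 := norm_nonneg F.2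
  have hvs : |v| ≤ s := by
    rw [abs_le]
    constructor <;> linarith
  have hs0 : 0 ≤ s := (abs_nonneg v).trans hvs
  have hwF : wq a b h c F = a v * s + b v + h s + c s * v := rfl
  -- integrability
  have hE : Continuous fun t : ℝ => Real.exp (-1 * t) := by fun_prop
  have i1 : Integrable (fun t => φ t * a (Real.exp (-1 * t) * v)) :=
    closeV_int hφ (ha.comp (hE.mul continuous_const))
  have i2 : Integrable (fun t => φ t * b (Real.exp (-1 * t) * v)) :=
    closeV_int hφ (hb.comp (hE.mul continuous_const))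
  have i3 : Integrable (fun t => φ t * Real.exp (-1 * t)) := closeV_int hφ hE
  have i0 : Integrable φ :=
    hφ.sm.continuous.integrable_of_hasCompactSupport (closeV_cs hφ)
  have hnew : wq (av φ (-1) a) (av φ (-1) b) h (fun s => Ec φ (-1) * c s) F - wq a b h c F =
      ∫ t, φ t * ((a (Real.exp (-1 * t) * v) * s + b (Real.exp (-1 * t) * v) + h s +
        c s * (Real.exp (-1 * t) * v)) - wq a b h c F) := by
    have e1 : (fun t => φ t * ((a (Real.exp (-1 * t) * v) * s + b (Real.exp (-1 * t) * v) + h s +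
        c s * (Real.exp (-1 * t) * v)) - wq a b h c F)) =
        fun t => (φ t * a (Real.exp (-1 * t) * v)) * s + φ t * b (Real.exp (-1 * t) * v) +
          (φ t * Real.exp (-1 * t)) * (c s * v) + φ t * (h s - wq a b h c F) := by
      funext t
      ring
    have j1 : Integrable (fun t => (φ t * a (Real.exp (-1 * t) * v)) * s) := i1.mul_const s
    have j12 : Integrable (fun t => (φ t * a (Real.exp (-1 * t) * v)) * s +
        φ t * b (Real.exp (-1 * t) * v)) := j1.add i2
    have j3 : Integrable (fun t => (φ t * Real.exp (-1 * t)) * (c s * v)) := i3.mul_const _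
    have j123 : Integrable (fun t => (φ t * a (Real.exp (-1 * t) * v)) * s +
        φ t * b (Real.exp (-1 * t) * v) + (φ t * Real.exp (-1 * t)) * (c s * v)) := j12.add j3
    have j4 : Integrable (fun t => φ t * (h s - wq a b h c F)) := i0.mul_const _
    rw [e1, integral_add j123 j4, integral_add j12 j3, integral_add j1 i2, integral_mul_const,
      integral_mul_const, integral_mul_const, hφ.int]
    show (av φ (-1) a v * s + av φ (-1) b v + h s + Ec φ (-1) * c s * v) - wq a b h c F = _
    unfold av Ec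
    ring
  rw [hnew]
  have hle : ‖∫ t, φ t * ((a (Real.exp (-1 * t) * v) * s + b (Real.exp (-1 * t) * v) + h s +
        c s * (Real.exp (-1 * t) * v)) - wq a b h c F)‖ ≤ ∫ t, φ t * ε := by
    refine norm_integral_le_of_norm_le (i0.mul_const ε) (Eventually.of_forall fun t => ?_)
    rw [norm_mul, Real.norm_eq_abs, abs_of_nonneg (hφ.nn t)]
    by_cases h0 : φ t = 0
    · rw [h0, zero_mul, zero_mul]
    · refine mul_le_mul_of_nonneg_left ?_ (hφ.nn t)
      obtain ⟨ht0, ht1⟩ := hφ.su t h0
      have he0 : 0 < Real.exp (-1 * t) := Real.exp_pos _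
      have he1 : Real.exp (-1 * t) ≤ 1 := Real.exp_le_one_iff.2 (by linarith)
      have he2 : 1 - t ≤ Real.exp (-1 * t) := by
        have := Real.add_one_le_exp (-1 * t)
        linarith
      have hv' : |Real.exp (-1 * t) * v| ≤ s := by
        rw [abs_mul, abs_of_pos he0]
        calc Real.exp (-1 * t) * |v| ≤ 1 * |v| := mul_le_mul_of_nonneg_right he1 (abs_nonneg v)
          _ = |v| := one_mul _
          _ ≤ s := hvs
      have h1 : (a (Real.exp (-1 * t) * v) * s + b (Real.exp (-1 * t) * v) + h s +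
          c s * (Real.exp (-1 * t) * v)) = g (s, Real.exp (-1 * t) * v) :=
        (closeV_wq a b h c hv').symm
      have h2 : wq a b h c F = g (s, v) := by
        rw [hwF]
        exact (closeV_wq a b h c hvs).symm
      rw [h1, h2, ← dist_eq_norm]
      refine (hunif _ ?_ _ ?_ ?_).le
      · rw [abs_le] at hv'
        exact ⟨⟨hs0, by show -R ≤ _; linarith [hv'.1]⟩, ⟨hF, by show _ ≤ R; linarith [hv'.2]⟩⟩
      · rw [abs_le] at hvs
        exact ⟨⟨hs0, by show -R ≤ _; linarith [hvs.1]⟩, ⟨hF, by show _ ≤ R; linarith [hvs.2]⟩⟩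
      · rw [Prod.dist_eq]
        simp only [dist_self]
        rw [max_eq_right dist_nonneg, Real.dist_eq]
        have h3 : Real.exp (-1 * t) * v - v = -((1 - Real.exp (-1 * t)) * v) := by ring
        rw [h3, abs_neg, abs_mul, abs_of_nonneg (by linarith)]
        have h4 : (1 - Real.exp (-1 * t)) * |v| ≤ δ₀ / (2 * R) * R :=
          mul_le_mul (by linarith) (hvs.trans hF) (abs_nonneg v) (by positivity)
        have h5 : δ₀ / (2 * R) * R = δ₀ / 2 := by field_simp
        rw [h5] at h4
        linarith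
  rw [integral_mul_const, hφ.int, one_mul, Real.norm_eq_abs] at hle
  exact hle

end Pool.Agent.TH937.FF6
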