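import Pool.Agent.TH937.FF6.Defs

set_option autoImplicit false

namespace Pool.Agent.TH937.FF6

open MeasureTheory Set Filter Topology
open Pool.Agent.TH937.ZC (RCc)

private theorem contrc_line {w : ℂ × ℂ → ℝ} (hR : RCc w) (F H : ℂ × ℂ) (hH : ‖H.1‖ = ‖H.2‖) :
    ConvexOn ℝ univ (fun t : ℝ => w (F + t • H)) := by
  refine ⟨convex_univ, fun x _ y _ a b ha hb hab => ?_⟩
  have h := hR (F + x • H) ((y - x) • H) (by
    rw [Prod.smul_fst, Prod.smul_snd, norm_smul, norm_smul, hH]) b hb (by linarith)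
  have e1 : F + x • H + b • (y - x) • H = F + (a • x + b • y) • H := by
    have : a = 1 - b := by linarith
    subst this
    simp only [smul_eq_mul]
    module
  have e2 : F + x • H + (y - x) • H = F + y • H := by module
  rw [e1, e2] at h
  have : a = 1 - b := by linarith
  simp only [smul_eq_mul] at h ⊢
  rw [this] at h ⊢
  exact h

private theorem contrc_step {Y : Type*} [TopologicalSpace Y] (f : ℝ → Y → ℝ)
    (hconv : ∀ y, ConvexOn ℝ univ (fun x => f x y)) (hcont : ∀ x, Continuous (f x)) :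
    Continuous (fun p : ℝ × Y => f p.1 p.2) := by
  rw [continuous_iff_continuousAt]
  rintro ⟨x0, y0⟩
  set M : Y → ℝ := fun y => max (f (x0 + 1) y) (f (x0 - 1) y) with hM
  have hMc : Continuous M := (hcont _).max (hcont _)
  have up : ∀ s t : ℝ, 0 ≤ t → t ≤ 1 → ∀ y, f (x0 + t * s) y ≤ (1 - t) * f x0 y + t * f (x0 + s) y := by
    intro s t h0 h1 y
    have h := (hconv y).2 (mem_univ x0) (mem_univ (x0 + s)) (by linarith : 0 ≤ 1 - t) h0 (by ring)
    simp only [smul_eq_mul] at h
    have e : (1 - t) * x0 + t * (x0 + s) = x0 + t * s := by ring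
    rwa [e] at h
  have lo : ∀ s t : ℝ, 0 ≤ t → ∀ y, (1 + t) * f x0 y - t * f (x0 - s) y ≤ f (x0 + t * s) y := by
    intro s t h0 y
    have ht : 0 < 1 + t := by linarith
    have h := (hconv y).2 (mem_univ (x0 + t * s)) (mem_univ (x0 - s))
      (by positivity : 0 ≤ 1 / (1 + t)) (by positivity : 0 ≤ t / (1 + t)) (by field_simp)
    simp only [smul_eq_mul] at h
    have e : 1 / (1 + t) * (x0 + t * s) + t / (1 + t) * (x0 - s) = x0 := by field_simp; ring
    rw [e] at h
    have e2 : 1 / (1 + t) * f (x0 + t * s) y + t / (1 + t) * f (x0 - s) y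
        = (f (x0 + t * s) y + t * f (x0 - s) y) / (1 + t) := by ring
    rw [e2, le_div_iff₀ ht] at h
    linarith
  have hlo : Tendsto (fun p : ℝ × Y => (1 + |p.1 - x0|) * f x0 p.2 - |p.1 - x0| * M p.2)
      (𝓝 (x0, y0)) (𝓝 (f x0 y0)) := by
    have : Continuous (fun p : ℝ × Y => (1 + |p.1 - x0|) * f x0 p.2 - |p.1 - x0| * M p.2) := by
      have := hcont x0
      fun_prop
    simpa using this.tendsto (x0, y0)
  have hup : Tendsto (fun p : ℝ × Y => (1 - |p.1 - x0|) * f x0 p.2 + |p.1 - x0| * M p.2)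
      (𝓝 (x0, y0)) (𝓝 (f x0 y0)) := by
    have : Continuous (fun p : ℝ × Y => (1 - |p.1 - x0|) * f x0 p.2 + |p.1 - x0| * M p.2) := by
      have := hcont x0
      fun_prop
    simpa using this.tendsto (x0, y0)
  have hev : ∀ᶠ p : ℝ × Y in 𝓝 (x0, y0), |p.1 - x0| ≤ 1 := by
    have hc : Continuous (fun p : ℝ × Y => |p.1 - x0|) := by fun_prop
    have := hc.tendsto (x0, y0)
    simp only [sub_self, abs_zero] at this
    exact (this.eventually (gt_mem_nhds (by norm_num : (0:ℝ) < 1))).mono fun p hp => hp.le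
  refine tendsto_of_tendsto_of_tendsto_of_le_of_le' hlo hup ?_ ?_
  · filter_upwards [hev] with p hp
    have h0 : 0 ≤ |p.1 - x0| := abs_nonneg _
    rcases le_total 0 (p.1 - x0) with h | h
    · have h1 := lo 1 |p.1 - x0| h0 p.2
      have e : x0 + |p.1 - x0| * 1 = p.1 := by rw [abs_of_nonneg h]; ring
      rw [e] at h1
      have h2 : f (x0 - 1) p.2 ≤ M p.2 := le_max_right _ _
      nlinarith
    · have h1 := lo (-1) |p.1 - x0| h0 p.2
      have e : x0 + |p.1 - x0| * (-1) = p.1 := by rw [abs_of_nonpos h]; ring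
      rw [e, sub_neg_eq_add] at h1
      have h2 : f (x0 + 1) p.2 ≤ M p.2 := le_max_left _ _
      nlinarith
  · filter_upwards [hev] with p hp
    have h0 : 0 ≤ |p.1 - x0| := abs_nonneg _
    rcases le_total 0 (p.1 - x0) with h | h
    · have h1 := up 1 |p.1 - x0| h0 hp p.2
      have e : x0 + |p.1 - x0| * 1 = p.1 := by rw [abs_of_nonneg h]; ring
      rw [e] at h1
      have h2 : f (x0 + 1) p.2 ≤ M p.2 := le_max_left _ _
      nlinarith
    · have h1 := up (-1) |p.1 - x0| h0 hp p.2
      have e : x0 + |p.1 - x0| * (-1) = p.1 := by rw [abs_of_nonpos h]; ring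
      rw [e, ← sub_eq_add_neg] at h1
      have h2 : f (x0 - 1) p.2 ≤ M p.2 := le_max_right _ _
      nlinarith


private noncomputable def contrcP (α β γ δ : ℝ) : ℂ × ℂ :=
  (((α + β : ℝ) : ℂ) + ((γ + δ : ℝ) : ℂ) * Complex.I, ((α - β : ℝ) : ℂ) + ((γ - δ : ℝ) : ℂ) * Complex.I)

theorem cont_of_rc {w : ℂ × ℂ → ℝ} (hR : RCc w) : Continuous w := by
  have c1 : ∀ α β γ : ℝ, Continuous (fun δ : ℝ => w (contrcP α β γ δ)) := by
    intro α β γ
    have h := contrc_line hR (contrcP α β γ 0) (Complex.I, -Complex.I) (by simp)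
    have e : (fun t : ℝ => w (contrcP α β γ 0 + t • (Complex.I, -Complex.I))) =
        fun δ => w (contrcP α β γ δ) := by
      funext t; congr 1
      unfold contrcP
      refine Prod.ext ?_ ?_
      · simp only [Prod.fst_add, Prod.smul_fst, Complex.real_smul]; push_cast; ring
      · simp only [Prod.snd_add, Prod.smul_snd, Complex.real_smul]; push_cast; ring
    rw [e] at h
    exact continuousOn_univ.1 (h.continuousOn isOpen_univ)
  have c2 : ∀ α β : ℝ, Continuous (fun q : ℝ × ℝ => w (contrcP α β q.1 q.2)) := by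
    intro α β
    refine contrc_step (fun γ δ => w (contrcP α β γ δ)) (fun δ => ?_) (c1 α β)
    have h := contrc_line hR (contrcP α β 0 δ) (Complex.I, Complex.I) (by simp)
    have e : (fun t : ℝ => w (contrcP α β 0 δ + t • (Complex.I, Complex.I))) =
        fun γ => w (contrcP α β γ δ) := by
      funext t; congr 1
      unfold contrcP
      refine Prod.ext ?_ ?_
      · simp only [Prod.fst_add, Prod.smul_fst, Complex.real_smul]; push_cast; ring
      · simp only [Prod.snd_add, Prod.smul_snd, Complex.real_smul]; push_cast; ring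
    rwa [e] at h
  have c3 : ∀ α : ℝ, Continuous (fun q : ℝ × ℝ × ℝ => w (contrcP α q.1 q.2.1 q.2.2)) := by
    intro α
    refine contrc_step (fun β (q : ℝ × ℝ) => w (contrcP α β q.1 q.2)) (fun q => ?_) (c2 α)
    have h := contrc_line hR (contrcP α 0 q.1 q.2) (1, -1) (by simp)
    have e : (fun t : ℝ => w (contrcP α 0 q.1 q.2 + t • ((1, -1) : ℂ × ℂ))) =
        fun β => w (contrcP α β q.1 q.2) := by
      funext t; congr 1
      unfold contrcP
      refine Prod.ext ?_ ?_
      · simp only [Prod.fst_add, Prod.smul_fst, Complex.real_smul]; push_cast; ring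
      · simp only [Prod.snd_add, Prod.smul_snd, Complex.real_smul]; push_cast; ring
    rwa [e] at h
  have c4 : Continuous (fun q : ℝ × ℝ × ℝ × ℝ => w (contrcP q.1 q.2.1 q.2.2.1 q.2.2.2)) := by
    refine contrc_step (fun α (q : ℝ × ℝ × ℝ) => w (contrcP α q.1 q.2.1 q.2.2)) (fun q => ?_) c3
    have h := contrc_line hR (contrcP 0 q.1 q.2.1 q.2.2) (1, 1) (by simp)
    have e : (fun t : ℝ => w (contrcP 0 q.1 q.2.1 q.2.2 + t • ((1, 1) : ℂ × ℂ))) =
        fun α => w (contrcP α q.1 q.2.1 q.2.2) := by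
      funext t; congr 1
      unfold contrcP
      refine Prod.ext ?_ ?_
      · simp only [Prod.fst_add, Prod.smul_fst, Complex.real_smul]; push_cast; ring
      · simp only [Prod.snd_add, Prod.smul_snd, Complex.real_smul]; push_cast; ring
    rwa [e] at h
  have c5 : Continuous fun F : ℂ × ℂ => (((F.1.re + F.2.re) / 2, (F.1.re - F.2.re) / 2,
      (F.1.im + F.2.im) / 2, (F.1.im - F.2.im) / 2) : ℝ × ℝ × ℝ × ℝ) := by
    have h1 : Continuous fun F : ℂ × ℂ => F.1.re := Complex.continuous_re.comp continuous_fst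
    have h2 : Continuous fun F : ℂ × ℂ => F.2.re := Complex.continuous_re.comp continuous_snd
    have h3 : Continuous fun F : ℂ × ℂ => F.1.im := Complex.continuous_im.comp continuous_fst
    have h4 : Continuous fun F : ℂ × ℂ => F.2.im := Complex.continuous_im.comp continuous_snd
    fun_prop
  have h := c4.comp c5
  have e : ((fun q : ℝ × ℝ × ℝ × ℝ => w (contrcP q.1 q.2.1 q.2.2.1 q.2.2.2)) ∘
      fun F : ℂ × ℂ => (((F.1.re + F.2.re) / 2, (F.1.re - F.2.re) / 2,
      (F.1.im + F.2.im) / 2, (F.1.im - F.2.im) / 2) : ℝ × ℝ × ℝ × ℝ)) = w := by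
    funext F
    simp only [Function.comp_apply]
    congr 1
    unfold contrcP
    refine Prod.ext ?_ ?_
    · refine Complex.ext ?_ ?_
      · simp; ring
      · simp; ring
    · refine Complex.ext ?_ ?_
      · simp; ring
      · simp; ring
  rwa [e] at h

end Pool.Agent.TH937.FF6
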