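import Pool.Agent.TH937.FF6.Defs
set_option autoImplicit false
namespace Pool.Agent.TH937.FF6
open MeasureTheory Set Filter Topology
open Pool.Agent.TH937.ZC (QL RCc)
open Pool.Agent.TH937.FF4 (Da)
open scoped ComplexConjugate

theorem cts_aux {a b h c : ℝ → ℝ} (hw : Continuous (wq a b h c)) :
    Continuous a ∧ Continuous b ∧ ContinuousOn h (Ioi 0) ∧ ContinuousOn c (Ioi 0) := by
  obtain ⟨W, hW⟩ : ∃ W : ℝ × ℝ → ℝ, W = fun p => wq a b h c
    ((((p.1 + p.2) / 2 : ℝ) : ℂ), (((p.1 - p.2) / 2 : ℝ) : ℂ)) := ⟨_, rfl⟩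
  have hWc : Continuous W := by
    rw [hW]
    exact hw.comp (by fun_prop)
  have hWv : ∀ s v, |v| ≤ s → W (s, v) = a v * s + b v + h s + c s * v := by
    intro s v hv
    rw [abs_le] at hv
    have e1 : ‖(((s + v) / 2 : ℝ) : ℂ)‖ = (s + v) / 2 := by
      rw [Complex.norm_real, Real.norm_of_nonneg (by linarith)]
    have e2 : ‖(((s - v) / 2 : ℝ) : ℂ)‖ = (s - v) / 2 := by
      rw [Complex.norm_real, Real.norm_of_nonneg (by linarith)]
    have e3 : (s + v) / 2 + (s - v) / 2 = s := by ring
    have e4 : (s + v) / 2 - (s - v) / 2 = v := by ring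
    rw [hW]
    show wq a b h c ((((s + v) / 2 : ℝ) : ℂ), (((s - v) / 2 : ℝ) : ℂ)) = _
    unfold wq
    simp only []
    rw [e1, e2, e3, e4]
  have hs : ∀ s : ℝ, Continuous fun v => W (s, v) := fun s => hWc.comp (by fun_prop)
  have ha : Continuous a := by
    rw [continuous_iff_continuousAt]
    intro v0
    obtain ⟨R, hR⟩ : ∃ R, R = |v0| + 1 := ⟨_, rfl⟩
    have h1 : Continuous fun v => W (R + 1, v) - W (R, v) - (h (R + 1) - h R) -
        (c (R + 1) - c R) * v := by
      have := hs (R + 1)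
      have := hs R
      fun_prop
    refine h1.continuousAt.congr ?_
    have h2 : ∀ᶠ v in 𝓝 v0, |v| < R :=
      (continuous_abs.tendsto v0).eventually_lt_const (by linarith)
    filter_upwards [h2] with v hv
    rw [hWv (R + 1) v (by linarith), hWv R v hv.le]
    ring
  have hb : Continuous b := by
    rw [continuous_iff_continuousAt]
    intro v0
    obtain ⟨R, hR⟩ : ∃ R, R = |v0| + 1 := ⟨_, rfl⟩
    have h1 : Continuous fun v => W (R, v) - a v * R - h R - c R * v := by
      have := hs R
      fun_prop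
    refine h1.continuousAt.congr ?_
    have h2 : ∀ᶠ v in 𝓝 v0, |v| < R :=
      (continuous_abs.tendsto v0).eventually_lt_const (by linarith)
    filter_upwards [h2] with v hv
    rw [hWv R v hv.le]
    ring
  have hh : ContinuousOn h (Ioi 0) := by
    have h1 : Continuous fun s : ℝ => W (s, 0) - a 0 * s - b 0 := by
      have : Continuous fun s : ℝ => W (s, 0) := hWc.comp (by fun_prop)
      fun_prop
    refine h1.continuousOn.congr fun s hs0 => ?_
    have hs1 : (0 : ℝ) < s := hs0
    simp only []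
    rw [hWv s 0 (by rw [abs_zero]; exact hs1.le)]
    ring
  refine ⟨ha, hb, hh, ?_⟩
  have h1 : ContinuousOn (fun s : ℝ => (W (s, s / 2) - a (s / 2) * s - b (s / 2) - h s) / (s / 2))
      (Ioi 0) := by
    have h2 : Continuous fun s : ℝ => W (s, s / 2) := hWc.comp (by fun_prop)
    refine ContinuousOn.div ?_ (by fun_prop) fun s hs0 => ?_
    · exact (((h2.sub ((ha.comp (by fun_prop)).mul continuous_id)).sub
        (hb.comp (by fun_prop))).continuousOn).sub hh
    · have hs1 : (0 : ℝ) < s := hs0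
      positivity
  refine h1.congr fun s hs0 => ?_
  have hs1 : (0 : ℝ) < s := hs0
  simp only []
  rw [hWv s (s / 2) (by rw [abs_of_pos (by positivity)]; linarith)]
  field_simp
  ring

theorem cts {a b h c : ℝ → ℝ} (hR : RCc (wq a b h c)) (hw : Continuous (wq a b h c)) :
    Continuous a ∧ Continuous b ∧ ContinuousOn h (Ioi 0) ∧ ContinuousOn c (Ioi 0) :=
  have _ := hR
  cts_aux hw

end Pool.Agent.TH937.FF6
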