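import Pool.Agent.TH937.FF5.Defs

/-!
# Morrey's problem for `W = a(v) s + b(v) + h(s) + c(s) v`: regularisation by dilations
-/

set_option autoImplicit false

namespace Pool.Agent.TH937.FF6

open MeasureTheory Set Filter Topology
open Pool.Agent.TH937.ZC (QL RCc)
open Pool.Agent.TH937.FF4 (Da)

/-- the function of the matrix, in the variables `(u_z, u_zbar)` -/
noncomputable def wq (a b h c : ℝ → ℝ) (F : ℂ × ℂ) : ℝ :=
  a (‖F.1‖ - ‖F.2‖) * (‖F.1‖ + ‖F.2‖) + b (‖F.1‖ - ‖F.2‖) + h (‖F.1‖ + ‖F.2‖)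
    + c (‖F.1‖ + ‖F.2‖) * (‖F.1‖ - ‖F.2‖)

/-- a smooth probability density on `[0, ε]` -/
structure Bp (φ : ℝ → ℝ) (ε : ℝ) : Prop where
  sm : ContDiff ℝ 3 φ
  nn : ∀ t, 0 ≤ φ t
  su : ∀ t, φ t ≠ 0 → 0 ≤ t ∧ t ≤ ε
  int : ∫ t, φ t = 1

/-- average over dilations -/
noncomputable def av (φ : ℝ → ℝ) (σ : ℝ) (f : ℝ → ℝ) (x : ℝ) : ℝ :=
  ∫ t, φ t * f (Real.exp (σ * t) * x)

noncomputable def Ec (φ : ℝ → ℝ) (σ : ℝ) : ℝ := ∫ t, φ t * Real.exp (σ * t)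

/-- data with derivatives -/
noncomputable def mk (a b h c : ℝ → ℝ) : Da where
  a := a
  b := b
  h := h
  c := c
  a1 := deriv a
  b1 := deriv b
  h1 := deriv h
  c1 := deriv c
  a2 := deriv (deriv a)
  b2 := deriv (deriv b)
  h2 := deriv (deriv h)
  c2 := deriv (deriv c)

end Pool.Agent.TH937.FF6
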