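import Pool.Agent.TH937.FF6.Defs
set_option autoImplicit false
namespace Pool.Agent.TH937.FF6
open MeasureTheory Set Filter Topology
open Pool.Agent.TH937.ZC (QL RCc)
open Pool.Agent.TH937.FF4 (Da)
open scoped ComplexConjugate

namespace DilSAux

/-- the function of the moduli -/
def gg (a b h c : ℝ → ℝ) (P Q : ℝ) : ℝ :=
  a (P - Q) * (P + Q) + b (P - Q) + h (P + Q) + c (P + Q) * (P - Q)

lemma norm_of {z : ℂ} {x y r : ℝ} (hx : z.re = x) (hy : z.im = y) (hr : 0 ≤ r)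
    (h : x ^ 2 + y ^ 2 = r ^ 2) : ‖z‖ = r := by
  rw [Complex.norm_eq_sqrt_sq_add_sq, hx, hy, h, Real.sqrt_sq hr]

lemma mono {a b h c : ℝ → ℝ} (hR : RCc (wq a b h c)) {P Q P' Q' : ℝ} (hP : 0 ≤ P) (hQ : 0 ≤ Q)
    (hP' : 0 ≤ P') (hQ' : 0 ≤ Q') (hPP : P' ≤ P) (he : P ^ 2 - Q ^ 2 = P' ^ 2 - Q' ^ 2) :
    gg a b h c P' Q' ≤ gg a b h c P Q := by
  obtain ⟨y, hy⟩ : ∃ y : ℝ, y ^ 2 = P ^ 2 - P' ^ 2 :=
    ⟨Real.sqrt (P ^ 2 - P' ^ 2), Real.sq_sqrt (by nlinarith)⟩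
  have h1 := hR (⟨P', y⟩, ⟨Q', y⟩) (⟨0, -(2 * y)⟩, ⟨0, -(2 * y)⟩) rfl (1 / 2) (by norm_num)
    (by norm_num)
  have n1 : ‖(((⟨P', y⟩ : ℂ), (⟨Q', y⟩ : ℂ)) + (1 / 2 : ℝ) • ((⟨0, -(2 * y)⟩ : ℂ),
      (⟨0, -(2 * y)⟩ : ℂ))).1‖ = P' :=
    norm_of (x := P') (y := 0) (by simp) (by simp) hP' (by ring)
  have n2 : ‖(((⟨P', y⟩ : ℂ), (⟨Q', y⟩ : ℂ)) + (1 / 2 : ℝ) • ((⟨0, -(2 * y)⟩ : ℂ),
      (⟨0, -(2 * y)⟩ : ℂ))).2‖ = Q' :=
    norm_of (x := Q') (y := 0) (by simp) (by simp) hQ' (by ring)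
  have n3 : ‖(⟨P', y⟩ : ℂ)‖ = P := norm_of rfl rfl hP (by linarith)
  have n4 : ‖(⟨Q', y⟩ : ℂ)‖ = Q := norm_of rfl rfl hQ (by linarith)
  have n5 : ‖(((⟨P', y⟩ : ℂ), (⟨Q', y⟩ : ℂ)) + ((⟨0, -(2 * y)⟩ : ℂ),
      (⟨0, -(2 * y)⟩ : ℂ))).1‖ = P :=
    norm_of (x := P') (y := -y) (by simp) (by simp; ring) hP (by linarith)
  have n6 : ‖(((⟨P', y⟩ : ℂ), (⟨Q', y⟩ : ℂ)) + ((⟨0, -(2 * y)⟩ : ℂ),
      (⟨0, -(2 * y)⟩ : ℂ))).2‖ = Q :=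
    norm_of (x := Q') (y := -y) (by simp) (by simp; ring) hQ (by linarith)
  unfold wq at h1
  rw [n1, n2, n5, n6] at h1
  simp only [n3, n4] at h1
  unfold gg
  linarith

/-- the linear map -/
noncomputable def T (p q : ℝ) (u : ℂ) (F : ℂ × ℂ) : ℂ × ℂ :=
  ((p : ℂ) * F.1 + (q : ℂ) * (u * F.2), (q : ℂ) * (conj u * F.1) + (p : ℂ) * F.2)

lemma T_add (p q : ℝ) (u : ℂ) (F H : ℂ × ℂ) (t : ℝ) :
    T p q u (F + t • H) = T p q u F + t • T p q u H := by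
  unfold T
  ext1
  · simp only [Prod.fst_add, Prod.snd_add, Prod.smul_fst, Prod.smul_snd, Complex.real_smul]
    ring
  · simp only [Prod.fst_add, Prod.snd_add, Prod.smul_fst, Prod.smul_snd, Complex.real_smul]
    ring

lemma T_add' (p q : ℝ) (u : ℂ) (F H : ℂ × ℂ) :
    T p q u (F + H) = T p q u F + T p q u H := by
  have := T_add p q u F H 1
  rwa [one_smul, one_smul] at this

lemma T_diff (p q : ℝ) {u : ℂ} (hu : ‖u‖ = 1) (F : ℂ × ℂ) :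
    ‖(T p q u F).1‖ ^ 2 - ‖(T p q u F).2‖ ^ 2 = (p ^ 2 - q ^ 2) * (‖F.1‖ ^ 2 - ‖F.2‖ ^ 2) := by
  have h1 : u.re * u.re + u.im * u.im = 1 := by
    have := Complex.normSq_apply u
    rw [← this, Complex.normSq_eq_norm_sq, hu]
    norm_num
  unfold T
  simp only [← Complex.normSq_eq_norm_sq, Complex.normSq_apply, Complex.add_re, Complex.add_im,
    Complex.mul_re, Complex.mul_im, Complex.ofReal_re, Complex.ofReal_im, Complex.conj_re,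
    Complex.conj_im]
  linear_combination (-(q ^ 2) * (F.1.re * F.1.re + F.1.im * F.1.im
    - (F.2.re * F.2.re + F.2.im * F.2.im))) * h1

lemma T_le1 {p q : ℝ} (hp : 0 ≤ p) (hq : 0 ≤ q) {u : ℂ} (hu : ‖u‖ = 1) (F : ℂ × ℂ) :
    ‖(T p q u F).1‖ ≤ p * ‖F.1‖ + q * ‖F.2‖ := by
  unfold T
  refine (norm_add_le _ _).trans (le_of_eq ?_)
  rw [norm_mul, norm_mul, norm_mul, hu, Complex.norm_real, Complex.norm_real,
    Real.norm_of_nonneg hp, Real.norm_of_nonneg hq, one_mul]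

lemma exists_dir (A : ℂ) : ∃ z : ℂ, ‖z‖ = 1 ∧ A = (‖A‖ : ℂ) * z := by
  by_cases hA : A = 0
  · exact ⟨1, norm_one, by rw [hA]; simp⟩
  · have h1 : (‖A‖ : ℂ) ≠ 0 := by
      simpa using hA
    refine ⟨A / ‖A‖, ?_, ?_⟩
    · rw [norm_div, Complex.norm_real, norm_norm]
      exact div_self (by simpa using hA)
    · field_simp

lemma conj_mul_self' {z : ℂ} (hz : ‖z‖ = 1) : conj z * z = 1 := by
  rw [Complex.conj_mul', hz]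
  norm_num

lemma aligned {p q : ℝ} (hp : 0 ≤ p) (hq : 0 ≤ q) (F : ℂ × ℂ) :
    ∃ u : ℂ, ‖u‖ = 1 ∧ ‖(T p q u F).1‖ = p * ‖F.1‖ + q * ‖F.2‖ ∧
      ‖(T p q u F).2‖ = q * ‖F.1‖ + p * ‖F.2‖ := by
  obtain ⟨α, hα, hA⟩ := exists_dir F.1
  obtain ⟨β, hβ, hB⟩ := exists_dir F.2
  refine ⟨α * conj β, ?_, ?_, ?_⟩
  · rw [norm_mul, RCLike.norm_conj, hα, hβ, one_mul]
  · have e : (T p q (α * conj β) F).1 = ((p * ‖F.1‖ + q * ‖F.2‖ : ℝ) : ℂ) * α := by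
      have h1 := conj_mul_self' hβ
      show (p : ℂ) * F.1 + (q : ℂ) * (α * conj β * F.2) = _
      rw [hA, hB]
      simp only [norm_mul, Complex.norm_real, norm_norm, hα, hβ, mul_one]
      push_cast
      linear_combination (q * ‖F.2‖ * α) * h1
    rw [e, norm_mul, hα, mul_one, Complex.norm_real, Real.norm_of_nonneg (by positivity)]
  · have e : (T p q (α * conj β) F).2 = ((q * ‖F.1‖ + p * ‖F.2‖ : ℝ) : ℂ) * β := by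
      have h1 := conj_mul_self' hα
      show (q : ℂ) * (conj (α * conj β) * F.1) + (p : ℂ) * F.2 = _
      rw [hA, hB]
      simp only [norm_mul, Complex.norm_real, norm_norm, hα, hβ, mul_one, map_mul,
        Complex.conj_conj]
      push_cast
      linear_combination (q * ‖F.1‖ * β) * h1
    rw [e, norm_mul, hβ, mul_one, Complex.norm_real, Real.norm_of_nonneg (by positivity)]

end DilSAux

open DilSAux

theorem dilS {a b h c : ℝ → ℝ} (hR : RCc (wq a b h c)) {l : ℝ} (hl : 1 ≤ l) :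
    RCc (fun F => a (‖F.1‖ - ‖F.2‖) * (l * (‖F.1‖ + ‖F.2‖)) + b (‖F.1‖ - ‖F.2‖)
      + h (l * (‖F.1‖ + ‖F.2‖)) + c (l * (‖F.1‖ + ‖F.2‖)) * (‖F.1‖ - ‖F.2‖)) := by
  obtain ⟨p, hp⟩ : ∃ p : ℝ, p = (l + 1) / 2 := ⟨_, rfl⟩
  obtain ⟨q, hq⟩ : ∃ q : ℝ, q = (l - 1) / 2 := ⟨_, rfl⟩
  have hp0 : 0 ≤ p := by rw [hp]; linarith
  have hq0 : 0 ≤ q := by rw [hq]; linarith
  obtain ⟨W, hW⟩ : ∃ W : ℂ × ℂ → ℝ, W = fun F =>
      a (‖F.1‖ - ‖F.2‖) * (l * (‖F.1‖ + ‖F.2‖)) + b (‖F.1‖ - ‖F.2‖)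
      + h (l * (‖F.1‖ + ‖F.2‖)) + c (l * (‖F.1‖ + ‖F.2‖)) * (‖F.1‖ - ‖F.2‖) := ⟨_, rfl⟩
  rw [← hW]
  have hWg : ∀ F : ℂ × ℂ, W F =
      gg a b h c (p * ‖F.1‖ + q * ‖F.2‖) (q * ‖F.1‖ + p * ‖F.2‖) := by
    intro F
    have e1 : p * ‖F.1‖ + q * ‖F.2‖ - (q * ‖F.1‖ + p * ‖F.2‖) = ‖F.1‖ - ‖F.2‖ := by
      rw [hp, hq]; ring
    have e2 : p * ‖F.1‖ + q * ‖F.2‖ + (q * ‖F.1‖ + p * ‖F.2‖) = l * (‖F.1‖ + ‖F.2‖) := by
      rw [hp, hq]; ring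
    rw [hW]
    unfold gg
    rw [e1, e2]
  have hwg : ∀ F : ℂ × ℂ, wq a b h c F = gg a b h c ‖F.1‖ ‖F.2‖ := fun F => rfl
  have hle : ∀ (u : ℂ) (F : ℂ × ℂ), ‖u‖ = 1 → wq a b h c (T p q u F) ≤ W F := by
    intro u F hu
    rw [hWg, hwg]
    refine mono hR (by positivity) (by positivity) (norm_nonneg _) (norm_nonneg _)
      (T_le1 hp0 hq0 hu F) ?_
    rw [T_diff p q hu F]
    ring
  intro F H hH t ht0 ht1
  obtain ⟨u, hu, h1, h2⟩ := aligned hp0 hq0 (F + t • H)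
  have e1 : W (F + t • H) = wq a b h c (T p q u F + t • T p q u H) := by
    rw [hWg, ← T_add, hwg, h1, h2]
  have h3 : ‖(T p q u H).1‖ = ‖(T p q u H).2‖ := by
    have h4 := T_diff p q hu H
    rw [hH, sub_self, mul_zero] at h4
    exact (sq_eq_sq₀ (norm_nonneg _) (norm_nonneg _)).1 (by linarith)
  have h5 := hR (T p q u F) (T p q u H) h3 t ht0 ht1
  rw [e1]
  refine h5.trans ?_
  rw [← T_add']
  exact add_le_add (mul_le_mul_of_nonneg_left (hle u F hu) (by linarith))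
    (mul_le_mul_of_nonneg_left (hle u (F + H) hu) ht0)

end Pool.Agent.TH937.FF6
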