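import Pool.Agent.TH937.FF6.DilS
set_option autoImplicit false
namespace Pool.Agent.TH937.FF6
open MeasureTheory Set Filter Topology
open Pool.Agent.TH937.ZC (QL RCc)
open Pool.Agent.TH937.FF4 (Da)
open scoped ComplexConjugate

theorem dilV {a b h c : ℝ → ℝ} (hR : RCc (wq a b h c)) {l : ℝ} (h0 : 0 < l) (hl : l ≤ 1) :
    RCc (fun F => a (l * (‖F.1‖ - ‖F.2‖)) * (‖F.1‖ + ‖F.2‖) + b (l * (‖F.1‖ - ‖F.2‖))
      + h (‖F.1‖ + ‖F.2‖) + c (‖F.1‖ + ‖F.2‖) * (l * (‖F.1‖ - ‖F.2‖))) := by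
  have key : ∀ G : ℂ × ℂ, wq a b h c (l • G) = wq (fun v => l * a (l * v)) (fun v => b (l * v))
      (fun s => h (l * s)) (fun s => l * c (l * s)) G := by
    intro G
    unfold wq
    simp only [Prod.smul_fst, Prod.smul_snd, norm_smul, Real.norm_eq_abs, abs_of_pos h0]
    rw [← mul_sub, ← mul_add]
    ring
  have hw : RCc (wq (fun v => l * a (l * v)) (fun v => b (l * v)) (fun s => h (l * s))
      (fun s => l * c (l * s))) := by
    intro F H hH t ht ht1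
    have h1 := hR (l • F) (l • H) (by
      simp only [Prod.smul_fst, Prod.smul_snd, norm_smul, hH]) t ht ht1
    have e1 : l • F + t • (l • H) = l • (F + t • H) := by
      rw [smul_add, smul_comm]
    have e2 : l • F + l • H = l • (F + H) := (smul_add _ _ _).symm
    rw [e1, e2, key, key, key] at h1
    exact h1
  have h2 := dilS hw (l := 1 / l) (by rw [le_div_iff₀ h0]; linarith)
  have e : ∀ s : ℝ, l * (1 / l * s) = s := fun s => by field_simp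
  have e3 : (fun F : ℂ × ℂ => a (l * (‖F.1‖ - ‖F.2‖)) * (‖F.1‖ + ‖F.2‖) + b (l * (‖F.1‖ - ‖F.2‖))
      + h (‖F.1‖ + ‖F.2‖) + c (‖F.1‖ + ‖F.2‖) * (l * (‖F.1‖ - ‖F.2‖))) =
      (fun F : ℂ × ℂ => (fun v => l * a (l * v)) (‖F.1‖ - ‖F.2‖) * (1 / l * (‖F.1‖ + ‖F.2‖))
        + (fun v => b (l * v)) (‖F.1‖ - ‖F.2‖)
        + (fun s => h (l * s)) (1 / l * (‖F.1‖ + ‖F.2‖))
        + (fun s => l * c (l * s)) (1 / l * (‖F.1‖ + ‖F.2‖)) * (‖F.1‖ - ‖F.2‖)) := by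
    funext F
    simp only [e]
    have h3 : l * a (l * (‖F.1‖ - ‖F.2‖)) * (1 / l * (‖F.1‖ + ‖F.2‖)) =
        a (l * (‖F.1‖ - ‖F.2‖)) * (l * (1 / l * (‖F.1‖ + ‖F.2‖))) := by ring
    rw [h3, e]
    ring
  rw [e3]
  exact h2

end Pool.Agent.TH937.FF6
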