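import Pool.Agent.TH937.FF6.Defs

/-! # FF6 RcS (job 5591, helper460) -/

set_option autoImplicit false

namespace Pool.Agent.TH937.FF6

open MeasureTheory Set Filter Topology
open Pool.Agent.TH937.ZC (QL RCc)
open Pool.Agent.TH937.FF4 (Da)
open scoped ComplexConjugate

private theorem RcS_cs {φ : ℝ → ℝ} {ε : ℝ} (hφ : Bp φ ε) : HasCompactSupport φ := by
  refine HasCompactSupport.intro (isCompact_Icc (a := (0 : ℝ)) (b := ε)) ?_
  intro t ht
  by_contra h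
  exact ht (hφ.su t h)

private theorem RcS_int {φ : ℝ → ℝ} {ε : ℝ} (hφ : Bp φ ε) {k : ℝ → ℝ} (hk : Continuous k) :
    Integrable (fun t => φ t * k t) :=
  (hφ.sm.continuous.mul hk).integrable_of_hasCompactSupport (RcS_cs hφ).mul_right

private theorem RcS_int2 {φ : ℝ → ℝ} {ε : ℝ} (hφ : Bp φ ε) {k : ℝ → ℝ}
    (hk : ContinuousOn k (Ioi 0)) {s : ℝ} (hs : 0 ≤ s) :
    Integrable (fun t => φ t * k (Real.exp (1 * t) * s)) := by
  apply RcS_int hφ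
  rcases hs.eq_or_lt with rfl | hs
  · simp only [mul_zero]
    exact continuous_const
  · exact hk.comp_continuous (by fun_prop) fun t => mul_pos (Real.exp_pos _) hs

private theorem RcS_eq {a b h c φ : ℝ → ℝ} {ε : ℝ} (hφ : Bp φ ε)
    (hh : ContinuousOn h (Ioi 0)) (hc : ContinuousOn c (Ioi 0)) (F : ℂ × ℂ) :
    Integrable (fun t => φ t * (a (‖F.1‖ - ‖F.2‖) * (Real.exp (1 * t) * (‖F.1‖ + ‖F.2‖))
      + b (‖F.1‖ - ‖F.2‖) + h (Real.exp (1 * t) * (‖F.1‖ + ‖F.2‖))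
      + c (Real.exp (1 * t) * (‖F.1‖ + ‖F.2‖)) * (‖F.1‖ - ‖F.2‖))) ∧
    ∫ t, φ t * (a (‖F.1‖ - ‖F.2‖) * (Real.exp (1 * t) * (‖F.1‖ + ‖F.2‖))
      + b (‖F.1‖ - ‖F.2‖) + h (Real.exp (1 * t) * (‖F.1‖ + ‖F.2‖))
      + c (Real.exp (1 * t) * (‖F.1‖ + ‖F.2‖)) * (‖F.1‖ - ‖F.2‖)) =
    wq (fun v => Ec φ 1 * a v) b (av φ 1 h) (av φ 1 c) F := by
  obtain ⟨s, hs'⟩ : ∃ s, s = ‖F.1‖ + ‖F.2‖ := ⟨_, rfl⟩
  have hs : 0 ≤ s := by rw [hs']; positivity
  obtain ⟨v, hv'⟩ : ∃ v, v = ‖F.1‖ - ‖F.2‖ := ⟨_, rfl⟩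
  unfold wq av Ec
  rw [← hs', ← hv']
  have e : (fun t => φ t * (a v * (Real.exp (1 * t) * s) + b v + h (Real.exp (1 * t) * s)
      + c (Real.exp (1 * t) * s) * v)) = fun t => (((φ t * Real.exp (1 * t)) * (a v * s) +
      φ t * b v) + φ t * h (Real.exp (1 * t) * s)) + (φ t * c (Real.exp (1 * t) * s)) * v := by
    funext t
    ring
  have i1 : Integrable (fun t => (φ t * Real.exp (1 * t)) * (a v * s)) :=
    (RcS_int hφ (by fun_prop)).mul_const _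
  have i2 : Integrable (fun t => φ t * b v) := RcS_int hφ continuous_const
  have i3 : Integrable (fun t => φ t * h (Real.exp (1 * t) * s)) := RcS_int2 hφ hh hs
  have i4 : Integrable (fun t => (φ t * c (Real.exp (1 * t) * s)) * v) :=
    (RcS_int2 hφ hc hs).mul_const _
  have i12 : Integrable (fun t => (φ t * Real.exp (1 * t)) * (a v * s) + φ t * b v) := i1.add i2
  have i123 : Integrable (fun t => ((φ t * Real.exp (1 * t)) * (a v * s) + φ t * b v)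
    + φ t * h (Real.exp (1 * t) * s)) := i12.add i3
  rw [e]
  refine ⟨i123.add i4, ?_⟩
  rw [integral_add i123 i4, integral_add i12 i3, integral_add i1 i2, integral_mul_const,
    integral_mul_const, integral_mul_const, hφ.int]
  ring

theorem rcS {a b h c φ : ℝ → ℝ} {ε : ℝ} (hφ : Bp φ ε) (ha : Continuous a) (hb : Continuous b)
    (hh : ContinuousOn h (Ioi 0)) (hc : ContinuousOn c (Ioi 0))
    (hdil : ∀ l : ℝ, 1 ≤ l → RCc (fun F => a (‖F.1‖ - ‖F.2‖) * (l * (‖F.1‖ + ‖F.2‖))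
      + b (‖F.1‖ - ‖F.2‖) + h (l * (‖F.1‖ + ‖F.2‖)) + c (l * (‖F.1‖ + ‖F.2‖)) * (‖F.1‖ - ‖F.2‖))) :
    RCc (wq (fun v => Ec φ 1 * a v) b (av φ 1 h) (av φ 1 c)) := by
  intro F H hH x hx0 hx1
  rw [← (RcS_eq hφ hh hc (F + x • H)).2, ← (RcS_eq hφ hh hc F).2, ← (RcS_eq hφ hh hc (F + H)).2,
    ← integral_const_mul, ← integral_const_mul]
  rw [← integral_add ((RcS_eq hφ hh hc F).1.const_mul _) ((RcS_eq hφ hh hc (F + H)).1.const_mul _)]
  refine integral_mono (RcS_eq hφ hh hc (F + x • H)).1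
    (((RcS_eq hφ hh hc F).1.const_mul _).add ((RcS_eq hφ hh hc (F + H)).1.const_mul _)) ?_
  intro t
  by_cases h0 : φ t = 0
  · simp [h0]
  · have h1 : 1 ≤ Real.exp (1 * t) := by
      rw [one_mul]
      exact Real.one_le_exp (hφ.su t h0).1
    have h2 := mul_le_mul_of_nonneg_left (hdil _ h1 F H hH x hx0 hx1) (hφ.nn t)
    refine h2.trans (le_of_eq ?_)
    ring

end Pool.Agent.TH937.FF6
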