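import Pool.Agent.TH937.FF6.Defs

/-! # FF6: averages over dilations of `v` (job 5592, helper329) -/

set_option autoImplicit false

namespace Pool.Agent.TH937.FF6

open MeasureTheory Set Filter Topology
open Pool.Agent.TH937.ZC (QL RCc)
open Pool.Agent.TH937.FF4 (Da)
open scoped ComplexConjugate

theorem RcV_int {φ : ℝ → ℝ} {ε : ℝ} (hφ : Bp φ ε) {f : ℝ → ℝ} (hf : Continuous f) :
    Integrable (fun t => φ t * f t) := by
  have hcs : HasCompactSupport φ :=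
    HasCompactSupport.of_support_subset_isCompact (isCompact_Icc (a := (0 : ℝ)) (b := ε))
      (fun t ht => hφ.su t ht)
  exact (hφ.sm.continuous.mul hf).integrable_of_hasCompactSupport hcs.mul_right

/-- the dilated function -/
noncomputable def RcV_W (a b h c : ℝ → ℝ) (l : ℝ) (F : ℂ × ℂ) : ℝ :=
  a (l * (‖F.1‖ - ‖F.2‖)) * (‖F.1‖ + ‖F.2‖) + b (l * (‖F.1‖ - ‖F.2‖)) + h (‖F.1‖ + ‖F.2‖)
    + c (‖F.1‖ + ‖F.2‖) * (l * (‖F.1‖ - ‖F.2‖))

theorem RcV_cont {a b h c : ℝ → ℝ} (ha : Continuous a) (hb : Continuous b) (F : ℂ × ℂ) :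
    Continuous fun t => RcV_W a b h c (Real.exp (-1 * t)) F := by
  unfold RcV_W
  fun_prop

theorem RcV_eq {a b h c φ : ℝ → ℝ} {ε : ℝ} (hφ : Bp φ ε) (ha : Continuous a) (hb : Continuous b)
    (F : ℂ × ℂ) :
    wq (av φ (-1) a) (av φ (-1) b) h (fun s => Ec φ (-1) * c s) F =
      ∫ t, φ t * RcV_W a b h c (Real.exp (-1 * t)) F := by
  have i1 : Integrable fun t => φ t * a (Real.exp (-1 * t) * (‖F.1‖ - ‖F.2‖)) :=
    RcV_int hφ (by fun_prop)
  have i2 : Integrable fun t => φ t * b (Real.exp (-1 * t) * (‖F.1‖ - ‖F.2‖)) :=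
    RcV_int hφ (by fun_prop)
  have i3 : Integrable fun t => φ t := by
    have := RcV_int hφ (f := fun _ => (1 : ℝ)) continuous_const
    simpa using this
  have i4 : Integrable fun t => φ t * Real.exp (-1 * t) := RcV_int hφ (by fun_prop)
  have e : (fun t => φ t * RcV_W a b h c (Real.exp (-1 * t)) F) = fun t =>
      (φ t * a (Real.exp (-1 * t) * (‖F.1‖ - ‖F.2‖)) * (‖F.1‖ + ‖F.2‖) +
        φ t * b (Real.exp (-1 * t) * (‖F.1‖ - ‖F.2‖))) +
      (φ t * h (‖F.1‖ + ‖F.2‖) +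
        φ t * Real.exp (-1 * t) * (c (‖F.1‖ + ‖F.2‖) * (‖F.1‖ - ‖F.2‖))) := by
    funext t
    unfold RcV_W
    ring
  have j1 : Integrable fun t =>
      φ t * a (Real.exp (-1 * t) * (‖F.1‖ - ‖F.2‖)) * (‖F.1‖ + ‖F.2‖) := i1.mul_const _
  have j3 : Integrable fun t => φ t * h (‖F.1‖ + ‖F.2‖) := i3.mul_const _
  have j4 : Integrable fun t =>
      φ t * Real.exp (-1 * t) * (c (‖F.1‖ + ‖F.2‖) * (‖F.1‖ - ‖F.2‖)) := i4.mul_const _
  have j12 : Integrable fun t =>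
      φ t * a (Real.exp (-1 * t) * (‖F.1‖ - ‖F.2‖)) * (‖F.1‖ + ‖F.2‖) +
        φ t * b (Real.exp (-1 * t) * (‖F.1‖ - ‖F.2‖)) := j1.add i2
  have j34 : Integrable fun t => φ t * h (‖F.1‖ + ‖F.2‖) +
      φ t * Real.exp (-1 * t) * (c (‖F.1‖ + ‖F.2‖) * (‖F.1‖ - ‖F.2‖)) := j3.add j4
  rw [e, integral_add j12 j34, integral_add j1 i2, integral_add j3 j4,
    integral_mul_const, integral_mul_const, integral_mul_const, hφ.int]
  unfold wq av Ec
  ring

theorem rcV {a b h c φ : ℝ → ℝ} {ε : ℝ} (hφ : Bp φ ε) (ha : Continuous a) (hb : Continuous b)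
    (hdil : ∀ l : ℝ, 0 < l → l ≤ 1 → RCc (fun F => a (l * (‖F.1‖ - ‖F.2‖)) * (‖F.1‖ + ‖F.2‖)
      + b (l * (‖F.1‖ - ‖F.2‖)) + h (‖F.1‖ + ‖F.2‖)
      + c (‖F.1‖ + ‖F.2‖) * (l * (‖F.1‖ - ‖F.2‖)))) :
    RCc (wq (av φ (-1) a) (av φ (-1) b) h (fun s => Ec φ (-1) * c s)) := by
  intro F H hFH τ h0 h1
  rw [RcV_eq hφ ha hb, RcV_eq hφ ha hb, RcV_eq hφ ha hb, ← integral_const_mul,
    ← integral_const_mul, ← integral_add]
  · refine integral_mono (RcV_int hφ (RcV_cont ha hb _)) ?_ fun t => ?_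
    · exact ((RcV_int hφ (RcV_cont ha hb _)).const_mul _).add
        ((RcV_int hφ (RcV_cont ha hb _)).const_mul _)
    · show φ t * RcV_W a b h c (Real.exp (-1 * t)) (F + τ • H) ≤
        (1 - τ) * (φ t * RcV_W a b h c (Real.exp (-1 * t)) F) +
          τ * (φ t * RcV_W a b h c (Real.exp (-1 * t)) (F + H))
      rcases eq_or_ne (φ t) 0 with h2 | h2
      · rw [h2]
        simp
      · have ht := (hφ.su t h2).1
        have h3 := hdil (Real.exp (-1 * t)) (Real.exp_pos _)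
          (Real.exp_le_one_iff.2 (by linarith)) F H hFH τ h0 h1
        have h4 : RcV_W a b h c (Real.exp (-1 * t)) (F + τ • H) ≤
            (1 - τ) * RcV_W a b h c (Real.exp (-1 * t)) F +
              τ * RcV_W a b h c (Real.exp (-1 * t)) (F + H) := h3
        have h5 := mul_le_mul_of_nonneg_left h4 (hφ.nn t)
        linarith
  · exact (RcV_int hφ (RcV_cont ha hb _)).const_mul _
  · exact (RcV_int hφ (RcV_cont ha hb _)).const_mul _

end Pool.Agent.TH937.FF6
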