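import Pool.Agent.TH937.FF6.Defs

/-!
# Morrey's problem: data with three derivatives off zero are regular (`reg_mk`)
-/

set_option autoImplicit false

namespace Pool.Agent.TH937.FF6

open MeasureTheory Set Filter Topology
open Pool.Agent.TH937.ZC (QL RCc)
open Pool.Agent.TH937.FF4 (Da)
open scoped ComplexConjugate

private theorem RegMk_k1 {f : ℝ → ℝ} (hf : ContDiffOn ℝ 3 f (Ioi 0)) :
    DifferentiableOn ℝ f (Ioi 0) ∧ ContDiffOn ℝ 2 (deriv f) (Ioi 0) := by
  have h : ContDiffOn ℝ (2 + 1) f (Ioi 0) := by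
    have e : (2 + 1 : WithTop ℕ∞) = 3 := by norm_num
    rw [e]; exact hf
  have h2 := (contDiffOn_succ_iff_deriv_of_isOpen isOpen_Ioi).1 h
  exact ⟨h2.1, h2.2.2⟩

private theorem RegMk_k2 {f : ℝ → ℝ} (hf : ContDiffOn ℝ 2 f (Ioi 0)) :
    DifferentiableOn ℝ f (Ioi 0) ∧ ContDiffOn ℝ 1 (deriv f) (Ioi 0) := by
  have h : ContDiffOn ℝ (1 + 1) f (Ioi 0) := by
    have e : (1 + 1 : WithTop ℕ∞) = 2 := by norm_num
    rw [e]; exact hf
  have h2 := (contDiffOn_succ_iff_deriv_of_isOpen isOpen_Ioi).1 h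
  exact ⟨h2.1, h2.2.2⟩

private theorem RegMk_k3 {f : ℝ → ℝ} (hf : ContDiffOn ℝ 1 f (Ioi 0)) :
    DifferentiableOn ℝ f (Ioi 0) ∧ ContinuousOn (deriv f) (Ioi 0) := by
  have h : ContDiffOn ℝ (0 + 1) f (Ioi 0) := by
    have e : (0 + 1 : WithTop ℕ∞) = 1 := by norm_num
    rw [e]; exact hf
  have h2 := (contDiffOn_succ_iff_deriv_of_isOpen isOpen_Ioi).1 h
  exact ⟨h2.1, contDiffOn_zero.1 h2.2.2⟩

private theorem RegMk_d1 {f : ℝ → ℝ} (hf : ContDiffOn ℝ 3 f (Ioi 0)) {x : ℝ} (hx : 0 < x) :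
    HasDerivAt f (deriv f x) x :=
  ((RegMk_k1 hf).1.differentiableAt (Ioi_mem_nhds hx)).hasDerivAt

private theorem RegMk_d2 {f : ℝ → ℝ} (hf : ContDiffOn ℝ 3 f (Ioi 0)) {x : ℝ} (hx : 0 < x) :
    HasDerivAt (deriv f) (deriv (deriv f) x) x :=
  ((RegMk_k2 (RegMk_k1 hf).2).1.differentiableAt (Ioi_mem_nhds hx)).hasDerivAt

private theorem RegMk_lip {f : ℝ → ℝ} (hf : ContDiffOn ℝ 3 f (Ioi 0)) (r R : ℝ) (hr : 0 < r) :
    ∃ L : ℝ, ∀ x y, r ≤ x → x ≤ R → r ≤ y → y ≤ R →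
      |deriv (deriv f) x - deriv (deriv f) y| ≤ L * |x - y| := by
  obtain ⟨h1, h2⟩ := RegMk_k3 (RegMk_k2 (RegMk_k1 hf).2).2
  have hsub : Icc r R ⊆ Ioi (0 : ℝ) := fun x hx => lt_of_lt_of_le hr hx.1
  obtain ⟨C, hC⟩ := (isCompact_Icc (a := r) (b := R)).exists_bound_of_continuousOn (h2.mono hsub)
  refine ⟨C, fun x y hx1 hx2 hy1 hy2 => ?_⟩
  have h := Convex.norm_image_sub_le_of_norm_deriv_le (𝕜 := ℝ) (f := deriv (deriv f)) (C := C)
    (s := Icc r R) (x := y) (y := x)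
    (fun z hz => h1.differentiableAt (Ioi_mem_nhds (hsub hz))) hC (convex_Icc r R)
    ⟨hy1, hy2⟩ ⟨hx1, hx2⟩
  simpa only [Real.norm_eq_abs] using h

private theorem RegMk_ne {f : ℝ → ℝ} (hf : ContDiffOn ℝ 3 f (Ioi 0))
    (hf' : ContDiffOn ℝ 3 (fun v => f (-v)) (Ioi 0)) {x : ℝ} (hx : x ≠ 0) :
    HasDerivAt f (deriv f x) x := by
  rcases lt_or_gt_of_ne hx with h | h
  · have h1 : HasDerivAt (fun v => f (-v)) (deriv (fun v => f (-v)) (-x)) (-x) :=
      RegMk_d1 hf' (by linarith)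
    have h2 := h1.comp x (hasDerivAt_neg x)
    have e : ((fun v => f (-v)) ∘ fun y : ℝ => -y) = f := by
      funext y
      simp
    have h3 : DifferentiableAt ℝ f x := by
      have h4 := h2.differentiableAt
      rwa [e] at h4
    exact h3.hasDerivAt
  · exact RegMk_d1 hf h

private theorem RegMk_A1 (f : ℝ → ℝ) : (fun v => -deriv f (-v)) = deriv (fun v => f (-v)) := by
  funext v
  exact (deriv_comp_neg f v).symm

private theorem RegMk_A2 (f : ℝ → ℝ) :
    (fun v => deriv (deriv f) (-v)) = deriv (deriv (fun v => f (-v))) := by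
  rw [← RegMk_A1]
  funext v
  have h : deriv (fun v => -deriv f (-v)) v = -deriv (fun v => deriv f (-v)) v :=
    deriv.fun_neg
  rw [h, deriv_comp_neg, neg_neg]

private theorem RegMk_neg {f : ℝ → ℝ} (hf : ContDiffOn ℝ 3 f (Ioi 0))
    (hf' : ContDiffOn ℝ 3 (fun v => f (-v)) (Ioi 0)) {x : ℝ} (hx : x ≠ 0) :
    HasDerivAt (fun v => f (-v)) (-deriv f (-x)) x := by
  have h1 : HasDerivAt f (deriv f (-x)) (-x) := RegMk_ne hf hf' (neg_ne_zero.2 hx)
  have h2 := h1.comp x (hasDerivAt_neg x)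
  have h3 : deriv f (-x) * -1 = -deriv f (-x) := by ring
  rw [h3] at h2
  exact h2

theorem reg_mk {a b h c : ℝ → ℝ} (ha : Continuous a) (hb : Continuous b)
    (a3 : ContDiffOn ℝ 3 a (Ioi 0)) (b3 : ContDiffOn ℝ 3 b (Ioi 0))
    (h3 : ContDiffOn ℝ 3 h (Ioi 0)) (c3 : ContDiffOn ℝ 3 c (Ioi 0))
    (a4 : ContDiffOn ℝ 3 (fun v => a (-v)) (Ioi 0))
    (b4 : ContDiffOn ℝ 3 (fun v => b (-v)) (Ioi 0)) :
    FF5.Reg (mk a b h c) ∧ FF5.Reg (mk a b h c).mirror := by
  constructor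
  · exact
      { ca := ha
        cb := hb
        a1 := fun x hx => RegMk_ne a3 a4 hx
        b1 := fun x hx => RegMk_ne b3 b4 hx
        h1 := fun x hx => RegMk_d1 h3 hx
        c1 := fun x hx => RegMk_d1 c3 hx
        a2 := fun x hx => RegMk_d2 a3 hx
        b2 := fun x hx => RegMk_d2 b3 hx
        h2 := fun x hx => RegMk_d2 h3 hx
        c2 := fun x hx => RegMk_d2 c3 hx
        la := fun r R hr => RegMk_lip a3 r R hr
        lb := fun r R hr => RegMk_lip b3 r R hr }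
  · exact
      { ca := ha.comp continuous_neg
        cb := hb.comp continuous_neg
        a1 := fun x hx => RegMk_neg a3 a4 hx
        b1 := fun x hx => RegMk_neg b3 b4 hx
        h1 := fun x hx => RegMk_d1 h3 hx
        c1 := fun x hx => (RegMk_d1 c3 hx).fun_neg
        a2 := fun x hx => by
          have h := RegMk_d2 a4 hx
          rw [← RegMk_A2, ← RegMk_A1] at h
          exact h
        b2 := fun x hx => by
          have h := RegMk_d2 b4 hx
          rw [← RegMk_A2, ← RegMk_A1] at h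
          exact h
        h2 := fun x hx => RegMk_d2 h3 hx
        c2 := fun x hx => (RegMk_d2 c3 hx).fun_neg
        la := fun r R hr => by
          have h := RegMk_lip a4 r R hr
          rw [← RegMk_A2] at h
          exact h
        lb := fun r R hr => by
          have h := RegMk_lip b4 r R hr
          rw [← RegMk_A2] at h
          exact h }

end Pool.Agent.TH937.FF6
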