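import Pool.Agent.TH937.FF6.Bump
import Pool.Agent.TH937.FF6.DilS
import Pool.Agent.TH937.FF6.DilV
import Pool.Agent.TH937.FF6.Cts
import Pool.Agent.TH937.FF6.RcS
import Pool.Agent.TH937.FF6.RcV
import Pool.Agent.TH937.FF6.Avs
import Pool.Agent.TH937.FF6.Avc
import Pool.Agent.TH937.FF6.RegMk
import Pool.Agent.TH937.FF6.CloseS
import Pool.Agent.TH937.FF6.CloseV
import Pool.Agent.TH937.FF6.Cont
import Pool.Agent.TH937.FF5.Fin

/-!
# Morrey's problem for `W = a(v) s + b(v) + h(s) + c(s) v`, arbitrary functions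
-/

set_option autoImplicit false

namespace Pool.Agent.TH937.FF6

open MeasureTheory Set Filter Topology
open scoped ComplexConjugate
open Pool.Agent.W360.MQ (cab RankOneConvex Quasiconvex)
open Pool.Agent.TH937.ZC (QL RCc QL_support)
open Pool.Agent.TH937.FF4 (Da)

theorem av_neg (φ : ℝ → ℝ) (σ : ℝ) (f : ℝ → ℝ) (x : ℝ) :
    av φ σ f (-x) = av φ σ (fun v => f (-v)) x := by
  unfold av
  congr 1
  ext t
  rw [mul_neg]

theorem ql_V {a b h c : ℝ → ℝ} (hR : RCc (wq a b h c)) (hw : Continuous (wq a b h c))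
    (ha : Continuous a) (hb : Continuous b) (h3 : ContDiffOn ℝ 3 h (Ioi 0))
    (c3 : ContDiffOn ℝ 3 c (Ioi 0)) (F0 : ℂ × ℂ) : QL (wq a b h c) F0 := by
  apply QL_support hw
  intro R ε hR' hε
  obtain ⟨δ, hδ, hcl⟩ := closeV hw ha hb (R := max R (‖F0.1‖ + ‖F0.2‖))
    (lt_of_lt_of_le hR' (le_max_left _ _)) hε
  obtain ⟨φ, hφ⟩ := bump hδ
  have ha' := av_cont (σ := -1) hφ ha
  have hb' := av_cont (σ := -1) hφ hb
  have hR1 : RCc (wq (av φ (-1) a) (av φ (-1) b) h (fun s => Ec φ (-1) * c s)) :=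
    rcV hφ ha hb (fun l h0 hl => dilV hR h0 hl)
  have hw1 := cont_of_rc hR1
  have hn : ∀ f : ℝ → ℝ, Continuous f →
      ContDiffOn ℝ 3 (fun v => av φ (-1) f (-v)) (Ioi 0) := by
    intro f hf
    have : (fun v => av φ (-1) f (-v)) = av φ (-1) (fun v => f (-v)) := funext (av_neg φ (-1) f)
    rw [this]
    exact av_smooth hφ (Or.inr rfl) (hf.comp continuous_neg).continuousOn
  obtain ⟨r1, r2⟩ := reg_mk ha' hb' (av_smooth hφ (Or.inr rfl) ha.continuousOn)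
    (av_smooth hφ (Or.inr rfl) hb.continuousOn) h3 (contDiffOn_const.mul c3 :
      ContDiffOn ℝ 3 (fun s => Ec φ (-1) * c s) (Ioi 0)) (hn a ha) (hn b hb)
  refine ⟨_, hw1, FF5.ql_all r1 r2 hR1 hw1 F0, ?_, ?_⟩
  · intro F hF
    have := (abs_le.1 (hcl φ hφ F (hF.trans (le_max_left _ _)))).2
    linarith
  · have := (abs_le.1 (hcl φ hφ F0 (le_max_right _ _))).1
    linarith

theorem ql_any {a b h c : ℝ → ℝ} (hR : RCc (wq a b h c)) (F0 : ℂ × ℂ) : QL (wq a b h c) F0 := by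
  have hw := cont_of_rc hR
  obtain ⟨ha, hb, hh, hc⟩ := cts hR hw
  apply QL_support hw
  intro R ε hR' hε
  obtain ⟨δ, hδ, hcl⟩ := closeS hw ha hb hh hc (R := max R (‖F0.1‖ + ‖F0.2‖))
    (lt_of_lt_of_le hR' (le_max_left _ _)) hε
  obtain ⟨φ, hφ⟩ := bump hδ
  have hR1 : RCc (wq (fun v => Ec φ 1 * a v) b (av φ 1 h) (av φ 1 c)) :=
    rcS hφ ha hb hh hc (fun l hl => dilS hR hl)
  have hw1 := cont_of_rc hR1
  refine ⟨_, hw1, ql_V hR1 hw1 (continuous_const.mul ha) hb (av_smooth hφ (Or.inl rfl) hh)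
    (av_smooth hφ (Or.inl rfl) hc) F0, ?_, ?_⟩
  · intro F hF
    have := (abs_le.1 (hcl φ hφ F (hF.trans (le_max_left _ _)))).2
    linarith
  · have := (abs_le.1 (hcl φ hφ F0 (le_max_right _ _))).1
    linarith

open scoped Matrix.Norms.L2Operator in
/-- **the theorem** -/
theorem main (a b h c : ℝ → ℝ) (W : Matrix (Fin 2) (Fin 2) ℝ → ℝ)
    (hW : ∀ A, W A = a (A.det / ‖A‖) * ‖A‖ + b (A.det / ‖A‖) + h ‖A‖ + c ‖A‖ * (A.det / ‖A‖))
    (hR : RankOneConvex W) : Quasiconvex W := by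
  have e : W = fun A => wq a b h c (cab A) := by
    ext A
    rw [hW]
    obtain ⟨h1, h3⟩ := Pool.Agent.TH937.FF4.nv_eq A
    rw [h3, h1]
    rfl
  rw [e] at hR ⊢
  have h1 := Pool.Agent.TH937.ZC.RCc_of hR
  exact Pool.Agent.TH937.ZC.QL_om (cont_of_rc h1) (ql_any h1)

end Pool.Agent.TH937.FF6
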